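import Pool.Agent.Lib.NOreP.Noe
import Pool.Agent.Lib.NOreP.Op

/-!
# MP_b4d666_al: double Ore extensions of regular algebras of dimension three, and their filtered
deformations, are noetherian
-/

set_option autoImplicit false

namespace Pool.Agent.Results.MP_b4d666_al.DoubleExtensionOfDimensionThree

open Pool.Agent.Lib.NOreP

/-- Let `G` be bigraded, with components `U j a`, such that `U 0` is a regular algebra of dimension three which is
generated in degree one and is a noetherian domain, and `G` is a twisted tensor product of `U 0` and a regular algebra
of dimension two (for example a double Ore extension of `U 0`). Then every algebra `R` with a filtration, indexed by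
the pairs of natural numbers with a well-order, with the associated graded algebra `G` is left and right noetherian. -/
theorem result (k G R : Type*) [Field k] [Ring G] [Algebra k G] [Ring R] [Algebra k R]
    (U : ℕ → ℕ → Submodule k G) (r d : ℕ) (x : Fin r → G) (M : Fin r → Fin r → G)
    (h : IsDoubleExt U r d x M) (lt : ℕ × ℕ → ℕ × ℕ → Prop) [IsWellOrder (ℕ × ℕ) lt]
    (F : ℕ × ℕ → Submodule k R) (θ : ∀ n, F n →ₗ[k] G) (hF : IsDeformation U lt F θ) :
    IsNoetherianRing R ∧ IsNoetherianRing Rᵐᵒᵖ :=
  ⟨hF.noeth h.finU h.gen_nat, hF.opp.noeth h.opp.finU h.opp.gen_nat⟩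

end Pool.Agent.Results.MP_b4d666_al.DoubleExtensionOfDimensionThree
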