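import Pool.Agent.Lib.NOreX.Noe
import Pool.Agent.Lib.NOreX.Op

/-!
# MP_b4d666_al: multigraded double Ore extensions and their filtered deformations are noetherian
-/

set_option autoImplicit false

namespace Pool.Agent.Results.MP_b4d666_al.MultigradedDoubleOre

open Pool.Agent.Lib.NOreX

/-- An algebra over a field with a filtration, indexed by the vectors of natural numbers with `r` entries and a
monomial well-order on them, whose associated graded algebra is generated by the components of the unit vectors in
every order, has the Hilbert function of a tensor product of polynomial rings in two variables (directions in `I`) or one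
variable (the other directions), and whose products of two nonzero elements in the component of a unit vector in `I`
are not zero, is left and right noetherian. -/
theorem result (k R : Type*) [Field k] [Ring R] [Algebra k R] (r : ℕ) (I : Finset (Fin r))
    (lt : (Fin r → ℕ) → (Fin r → ℕ) → Prop) [IsWellOrder (Fin r → ℕ) lt]
    (hadd : ∀ a b c, lt a b → lt (a + c) (b + c)) (F : (Fin r → ℕ) → Submodule k R)
    (h : IsDoubleOre I lt F) : IsNoetherianRing R ∧ IsNoetherianRing Rᵐᵒᵖ :=
  ⟨h.noeth hadd, h.op.noeth hadd⟩

end Pool.Agent.Results.MP_b4d666_al.MultigradedDoubleOre
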